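import Pool.Agent.K4H63.PI.Main1

/-!
# Two ends, spherically symmetric metric, arbitrary second fundamental form: one good ray

Initial data `(g, h)` on `ℝ³ ∖ {0}`, where `g = φ(|x|)⁴ δ` is any spherically symmetric metric with
two ends, and `h` is an ARBITRARY symmetric tensor field (no symmetry is assumed of `h`), satisfying
the dominant energy condition `μ ≥ |J|`.

On a centred sphere with unit normal `ν` let `β = h(ν, ·)` be the mixed part of `h` and `h°` the
trace-free part of the restriction of `h` to the sphere. If there is ONE ray from the origin along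
which
`(tr_S h) div_S β + H (2 |β|² + |h°|²) / 2 ≥ 0` wherever `|tr_S h| ≤ H`,
then the Penrose inequality `m ≥ √(A / 16π)` holds. The condition holds for instance if
`div_S β = 0` (for example `β = 0` in a neighbourhood of the ray), or `tr_S h = 0`, along the ray.
-/

set_option autoImplicit false

namespace Pool.Agent.Results.MP_ede089_mp.OneGoodRay

open Pool.Agent.K4H63.PI Filter Topology

/-- The least area of the centred spheres (these are among the surfaces separating the two
ends). -/
noncomputable def leastArea (φ : ℝ → ℝ) : ℝ := sInf (sphereArea φ '' Set.Ioi 0)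

theorem result (φ : ℝ → ℝ) (h : E → Matrix (Fin 3) (Fin 3) ℝ) (m : ℝ)
    -- `φ` is positive and `C²` on `(0, ∞)`; `h` is symmetric and `C¹` on `ℝ³ ∖ {0}`
    (hφ : Good φ) (hh : Tensor h)
    -- the end at infinity is asymptotically flat with total mass `m`
    (flat : FlatEnd φ m) (decay : Decay h)
    -- the area radius tends to infinity in the second end `x → 0`
    (second : Tendsto (fun r => (φ r) ^ 2 * r) (𝓝[>] 0) atTop)
    -- the dominant energy condition
    (dec : ∀ x : E, x ≠ 0 → momentumNorm (metric φ) h x ≤ energy (metric φ) h x)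
    -- the condition along one ray
    (ray : ∃ ω : E, ‖ω‖ = 1 ∧ ∀ r : ℝ, 0 < r → |trS φ h (r • ω)| ≤ meanCurv φ (r • ω) →
      0 ≤ trS φ h (r • ω) * divS φ h (r • ω) + meanCurv φ (r • ω) * transS φ h (r • ω) / 2) :
    Real.sqrt (leastArea φ / (16 * Real.pi)) ≤ m := by
  obtain ⟨ω, hω, hray⟩ := ray
  obtain ⟨r₁, hr₁, hneg⟩ := exists_neg hφ second
  obtain ⟨r₀, h1, h2⟩ := ray_theorem hφ hh flat decay hω hr₁
    (fun r hr => dec _ (ray_ne hω (hr₁.trans_le hr)))
    (fun r hr => hray r (hr₁.trans_le hr))
    (by
      refine le_trans ?_ (abs_nonneg _)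
      rw [meanCurv_eq hφ (ray_ne hω hr₁), ray_norm hω hr₁]
      have := hφ.pos r₁ hr₁
      exact div_nonpos_of_nonpos_of_nonneg (by linarith) (by positivity))
  refine le_trans (Real.sqrt_le_sqrt ?_) h2
  have h3 : leastArea φ ≤ sphereArea φ r₀ := by
    refine csInf_le ⟨0, ?_⟩ ⟨r₀, hr₁.trans_le h1, rfl⟩
    rintro _ ⟨r, _, rfl⟩
    unfold sphereArea
    positivity
  have := Real.pi_pos
  exact div_le_div_of_nonneg_right h3 (by positivity)

end Pool.Agent.Results.MP_ede089_mp.OneGoodRay
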