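import Pool.Agent.K4H63.PI.Peak

/-!
# Two ends, spherically symmetric metric: a condition at one point of each centred sphere

Initial data `(g, h)` on `ℝ³ ∖ {0}`, where `g = φ(|x|)⁴ δ` is any spherically symmetric metric with
two ends, and `h` is an arbitrary symmetric tensor field (no symmetry is assumed of `h`), satisfying
the dominant energy condition `μ ≥ |J|`.

On a centred sphere `S` with unit normal `ν` let `β = h(ν, ·)` be the mixed part of `h` and `h°` the
trace-free part of the restriction of `h` to `S`. The Penrose inequality `m ≥ √(A / 16π)` holds if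
on every centred sphere `S` with `|tr_S h| ≤ H`

* `tr_S h` is constant, or
* at ONE point where `|tr_S h|` attains its maximum over `S` one has
  `(tr_S h) div_S β + H (2 |β|² + |h°|²) / 2 ≥ 0` (for instance `div_S β = 0` at such a point).

The proof: with `M(r)` the maximum of `|tr_S h|` over the sphere of area radius `ρ`, the lower right
Dini derivative of `ρ (1 - ρ² H² / 4) + ρ³ M² / 4` is nonnegative outside the outermost sphere with
`M = H`, where this function equals `ρ`; its limit is `2 m`.
-/

set_option autoImplicit false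

namespace Pool.Agent.Results.MP_ede089_mp.PeakExpansion

open Pool.Agent.K4H63.PI Filter Topology

/-- The least area of the centred spheres (these are among the surfaces separating the two
ends). -/
noncomputable def leastArea (φ : ℝ → ℝ) : ℝ := sInf (sphereArea φ '' Set.Ioi 0)

theorem result (φ : ℝ → ℝ) (h : E → Matrix (Fin 3) (Fin 3) ℝ) (m : ℝ)
    -- `φ` is positive and `C²` on `(0, ∞)`; `h` is symmetric and `C¹` on `ℝ³ ∖ {0}`
    (hφ : Good φ) (hh : Tensor h)
    -- the end at infinity is asymptotically flat with total mass `m`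
    (flat : FlatEnd φ m) (decay : Decay h)
    -- the area radius tends to infinity in the second end `x → 0`
    (second : Tendsto (fun r => (φ r) ^ 2 * r) (𝓝[>] 0) atTop)
    -- the dominant energy condition
    (dec : ∀ x : E, x ≠ 0 → momentumNorm (metric φ) h x ≤ energy (metric φ) h x)
    -- the condition at one point of each centred sphere that is untrapped at all its points
    (cond : ∀ r : ℝ, 0 < r → (∀ w : E, ‖w‖ = 1 → |trS φ h (r • w)| ≤ sphereH φ r) →
      (∃ c, ∀ w : E, ‖w‖ = 1 → trS φ h (r • w) = c) ∨
      ∃ w : E, ‖w‖ = 1 ∧ (∀ v : E, ‖v‖ = 1 → |trS φ h (r • v)| ≤ |trS φ h (r • w)|) ∧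
        0 ≤ trS φ h (r • w) * divS φ h (r • w) + meanCurv φ (r • w) * transS φ h (r • w) / 2) :
    Real.sqrt (leastArea φ / (16 * Real.pi)) ≤ m := by
  obtain ⟨r₁, hr₁, hneg⟩ := exists_neg hφ second
  have hp := hφ.pos r₁ hr₁
  obtain ⟨r₀, h1, h2⟩ := peak_theorem hφ hh flat decay hr₁
    (fun x hx => dec x (norm_pos_iff.1 (hr₁.trans_le hx)))
    (fun r hr hu => cond r (hr₁.trans_le hr) hu)
    ⟨EuclideanSpace.single 0 1, by simp, by
      refine le_trans ?_ (abs_nonneg _)
      rw [sphereH_eq hφ hr₁]
      exact div_nonpos_of_nonpos_of_nonneg (by linarith) (by positivity)⟩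
  refine le_trans (Real.sqrt_le_sqrt ?_) h2
  have h3 : leastArea φ ≤ sphereArea φ r₀ := by
    refine csInf_le ⟨0, ?_⟩ ⟨r₀, hr₁.trans_le h1, rfl⟩
    rintro _ ⟨r, _, rfl⟩
    unfold sphereArea
    positivity
  have := Real.pi_pos
  exact div_le_div_of_nonneg_right h3 (by positivity)

end Pool.Agent.Results.MP_ede089_mp.PeakExpansion
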