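import Pool.Agent.K4H63.PI.Sign5

/-!
# Two ends, spherically symmetric metric: the condition on `h` is not needed where `R_g < 0`

Initial data `(g, h)` on `ℝ³ ∖ {0}`, where `g = φ(|x|)⁴ δ` is any spherically symmetric metric with
two ends, and `h` is a symmetric tensor field, without any symmetry, satisfying the dominant energy
condition `μ ≥ |J|`.

The Penrose inequality `m ≥ √(A / 16π)` is proved under the following conditions. In an inner region
`|x| < R₀` (possibly empty) the scalar curvature of `g` is nonnegative, and there is no condition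
on `h`. Each centred sphere `S` outside with `|average of tr_S h| ≤ H` satisfies one of:

* `tr_g h` is constant on `S`, or `tr_S h` is constant on `S`, or the average of
  `(tr_g h)² - |h|²` is at most the value of this quadratic expression at the rotational average
  of `h`;
* `S` is not partially trapped (`|tr_S h| ≤ H` at each point of `S`) and `R_g < 0` on `S`, with no
  other condition on `h`;
* `S` is not partially trapped, `tr_S h` has no zero on `S` and
  `R_g (q · avg(1 / tr_S h) - 1) ≤ q · avg((2 |β|² + |h°|²) / tr_S h)`, `q` the average of `tr_S h`.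

The new case is proved by multiplying the dominant energy condition by `1 / tr_S h` before
averaging: this is the only multiplier for which the divergence of the mixed part `β = h(ν, ·)`
still has average zero and `h(ν, ν)` drops out.
-/

set_option autoImplicit false

namespace Pool.Agent.Results.MP_ede089_mp.ScalarSign

open Pool.Agent.K4H63.PI Filter Topology

/-- The least area of the centred spheres (these are among the surfaces separating the two
ends). -/
noncomputable def leastArea (φ : ℝ → ℝ) : ℝ := sInf (sphereArea φ '' Set.Ioi 0)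

/-- `F` is constant on the centred sphere of radius `r`. -/
def ConstOn (F : E → ℝ) (r : ℝ) : Prop := ∃ c, ∀ w : E, ‖w‖ = 1 → F (r • w) = c

theorem result (φ : ℝ → ℝ) (h : E → Matrix (Fin 3) (Fin 3) ℝ) (m : ℝ)
    -- `φ` is positive and `C²` on `(0, ∞)`; `h` is symmetric and `C¹` on `ℝ³ ∖ {0}`
    (hφ : Good φ) (hh : Tensor h)
    -- the end at infinity is asymptotically flat with total mass `m`
    (flat : FlatEnd φ m) (decay : Decay h)
    -- the area radius tends to infinity in the second end `x → 0`
    (second : Tendsto (fun r => (φ r) ^ 2 * r) (𝓝[>] 0) atTop)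
    -- the dominant energy condition
    (dec : ∀ x : E, x ≠ 0 → momentumNorm (metric φ) h x ≤ energy (metric φ) h x)
    -- the scalar curvature is nonnegative in the inner region `|x| < R₀`
    (R₀ : ℝ) (inner : ∀ x : E, x ≠ 0 → ‖x‖ < R₀ → 0 ≤ scal (metric φ) x)
    -- the condition on the other spheres
    (cond : ∀ r : ℝ, 0 < r → R₀ ≤ r → |sphAvg (trS φ h) r| ≤ sphereH φ r →
      ConstOn (trg (metric φ) h) r ∨ ConstOn (trS φ h) r ∨ AvgCond φ h r ∨
      (∀ w : E, ‖w‖ = 1 → |trS φ h (r • w)| ≤ sphereH φ r) ∧
        ((∀ w : E, ‖w‖ = 1 → scal (metric φ) (r • w) < 0) ∨ InvCond φ h r)) :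
    Real.sqrt (leastArea φ / (16 * Real.pi)) ≤ m := by
  obtain ⟨r₀, h1, h2⟩ := full_theorem hφ hh flat decay second dec R₀ inner
    (fun r h0 hr hu => by
      rcases cond r h0 hr hu with h3 | h3 | h3 | h3
      · exact Or.inl (avgCond_of_trg hφ hh h0 h3)
      · exact Or.inl (avgCond_of_trS hφ hh h0 h3)
      · exact Or.inl h3
      · exact Or.inr h3)
  refine le_trans (Real.sqrt_le_sqrt ?_) h2
  have h3 : leastArea φ ≤ sphereArea φ r₀ := by
    refine csInf_le ⟨0, ?_⟩ ⟨r₀, h1, rfl⟩
    rintro _ ⟨r, _, rfl⟩
    unfold sphereArea
    positivity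
  have := Real.pi_pos
  exact div_le_div_of_nonneg_right h3 (by positivity)

end Pool.Agent.Results.MP_ede089_mp.ScalarSign
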